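import Mathlib
import Pool.Agent.Q90.CrossedDefs
import Pool.Agent.Q90.Crossed

/-!
# Full and reduced `L^p` crossed products by finite groups agree

The definitions are in `Pool.Agent.Q90.CrossedDefs`.
-/

set_option autoImplicit false

open Q90.Crossed
open scoped ENNReal

namespace Pool.Agent.Results.MP_579095_an.FullEqReduced

/-- **The map `κ_r` is isometric for finite groups** (positive answer to Q1).

Let `1 ≤ p < ∞`, let `G` be a finite group and let `(G, A, α)` be a nondegenerately `σ`-finitely
representable isometric `G`-`L^p` operator algebra. Then the full norm and the reduced norm agree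
on `C(G, A, α)`. (The two sets of norms of integrated forms whose suprema are the full and the
reduced norm are non-empty and bounded.) -/
theorem result (p : ℝ≥0∞) [Fact (1 ≤ p)] (hp : p ≠ ∞) (G A : Type) [Group G] [Fintype G]
    [NonUnitalNormedRing A] [NormedSpace ℂ A] [IsScalarTower ℂ A A] [SMulCommClass ℂ A A]
    [CompleteSpace A] (hA : Representable p A) (α : Action G A) (a : G → A) :
    (fullValues p α a).Nonempty ∧ BddAbove (fullValues p α a) ∧
      (reducedValues p α a).Nonempty ∧ BddAbove (reducedValues p α a) ∧
      fullNorm p α a = reducedNorm p α a :=
  ⟨nonempty_fullValues hp hA α a, bddAbove_fullValues α a, nonempty_reducedValues hp hA α a,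
    bddAbove_reducedValues α a, fullNorm_eq_reducedNorm hp hA α a⟩

end Pool.Agent.Results.MP_579095_an.FullEqReduced
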